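import Pool.Agent.Helper77.K3.DefsII

/-!
# A hyperbolic element in the second derived group
-/

set_option autoImplicit false
set_option linter.unusedSectionVars false
set_option linter.unusedVariables false

open Set Filter Topology Matrix

namespace Pool.Agent.Helper3.K3.hyp2

open Pool.Agent.Helper77.K3

/-- The determinant of two vectors, as a functional of the second. -/
def dd (u : Fin 2 → ℝ) : (Fin 2 → ℝ) →ₗ[ℝ] ℝ where
  toFun x := u 0 * x 1 - u 1 * x 0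
  map_add' x y := by simp only [Pi.add_apply]; ring
  map_smul' c x := by simp only [Pi.smul_apply, smul_eq_mul, RingHom.id_apply]; ring

theorem dd_apply (u x : Fin 2 → ℝ) : dd u x = u 0 * x 1 - u 1 * x 0 := rfl

theorem dd_ne_zero {u : Fin 2 → ℝ} (hu : u ≠ 0) : dd u ≠ 0 := by
  intro h
  apply hu
  have h0 := LinearMap.congr_fun h ![1, 0]
  have h1 := LinearMap.congr_fun h ![0, 1]
  simp [dd_apply] at h0 h1
  ext i
  fin_cases i
  · exact h1
  · exact h0

theorem dd_self (u : Fin 2 → ℝ) : dd u u = 0 := by rw [dd_apply]; ring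

theorem dd_comm (u x : Fin 2 → ℝ) : dd u x = -dd x u := by rw [dd_apply, dd_apply]; ring

theorem exists_eigen (A : M2) (l : ℝ) (h : l ^ 2 - A.trace * l + A.det = 0) :
    ∃ v : Fin 2 → ℝ, v ≠ 0 ∧ A *ᵥ v = l • v := by
  have h1 : (A - l • (1 : M2)).det = 0 := by
    rw [Matrix.det_fin_two] at h ⊢
    rw [Matrix.trace_fin_two] at h
    simp
    linarith
  obtain ⟨v, hv, h2⟩ := Matrix.exists_mulVec_eq_zero_iff.mpr h1
  refine ⟨v, hv, ?_⟩
  rw [Matrix.sub_mulVec, Matrix.smul_mulVec, Matrix.one_mulVec] at h2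
  exact sub_eq_zero.mp h2

theorem eigen_pair (A : M2) (h : 4 * |A.det| < A.trace ^ 2) :
    ∃ (l m : ℝ) (u s : Fin 2 → ℝ), |m| < |l| ∧ l + m = A.trace ∧ l * m = A.det ∧
      u ≠ 0 ∧ s ≠ 0 ∧ A *ᵥ u = l • u ∧ A *ᵥ s = m • s := by
  have hD : 0 < A.trace ^ 2 - 4 * A.det := by
    have := le_abs_self A.det
    linarith
  have ht : A.trace ≠ 0 := by
    intro h0
    rw [h0] at h
    have := abs_nonneg A.det
    norm_num at h
    linarith
  set r := Real.sqrt (A.trace ^ 2 - 4 * A.det) with hr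
  have hr2 : r ^ 2 = A.trace ^ 2 - 4 * A.det := Real.sq_sqrt hD.le
  have hr0 : 0 < r := Real.sqrt_pos.mpr hD
  have key : ∀ l m : ℝ, l + m = A.trace → l * m = A.det → |m| < |l| →
      ∃ (l m : ℝ) (u s : Fin 2 → ℝ), |m| < |l| ∧ l + m = A.trace ∧ l * m = A.det ∧
      u ≠ 0 ∧ s ≠ 0 ∧ A *ᵥ u = l • u ∧ A *ᵥ s = m • s := by
    intro l m h1 h2 h3
    obtain ⟨u, hu, hu'⟩ := exists_eigen A l (by rw [← h1, ← h2]; ring)
    obtain ⟨s, hs, hs'⟩ := exists_eigen A m (by rw [← h1, ← h2]; ring)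
    exact ⟨l, m, u, s, h3, h1, h2, hu, hs, hu', hs'⟩
  rcases lt_or_gt_of_ne ht with hneg | hpos
  · apply key ((A.trace - r) / 2) ((A.trace + r) / 2) (by ring) (by nlinarith)
    rw [← sq_lt_sq]
    nlinarith
  · apply key ((A.trace + r) / 2) ((A.trace - r) / 2) (by ring) (by nlinarith)
    rw [← sq_lt_sq]
    nlinarith

theorem dd_ne_of_eigen {A : M2} {l m : ℝ} {u s : Fin 2 → ℝ} (hlm : l ≠ m) (hu : u ≠ 0) (hs : s ≠ 0)
    (h1 : A *ᵥ u = l • u) (h2 : A *ᵥ s = m • s) : dd u s ≠ 0 := by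
  intro h0
  rw [dd_apply] at h0
  have e1 : ∀ i, A i 0 * u 0 + A i 1 * u 1 = l * u i := by
    intro i
    have := congrFun h1 i
    simpa [Matrix.mulVec, dotProduct, Fin.sum_univ_two] using this
  have e2 : ∀ i, A i 0 * s 0 + A i 1 * s 1 = m * s i := by
    intro i
    have := congrFun h2 i
    simpa [Matrix.mulVec, dotProduct, Fin.sum_univ_two] using this
  -- `u j • s = s j • u`
  have e3 : ∀ i j, u j * s i = s j * u i := by
    intro i j
    fin_cases i <;> fin_cases j <;> simp <;> linarith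
  have e4 : ∀ i j, (l - m) * (u j * s i) = 0 := by
    intro i j
    have a1 := e1 i
    have a2 := e2 i
    have a3 : u j * (m * s i) = s j * (l * u i) := by
      rw [← a1, ← a2]
      have b0 := e3 0 j
      have b1 := e3 1 j
      linear_combination A i 0 * b0 + A i 1 * b1
    have a4 := e3 i j
    linear_combination (-1 : ℝ) * a3 + l * a4
  have e5 : ∀ i j, u j * s i = 0 := fun i j =>
    (mul_eq_zero.mp (e4 i j)).resolve_left (sub_ne_zero.mpr hlm)
  obtain ⟨j, hj⟩ := Function.ne_iff.mp hu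
  obtain ⟨i, hi⟩ := Function.ne_iff.mp hs
  exact mul_ne_zero hj hi (e5 i j)

/-- Conjugation of a multiplicative map. -/
noncomputable def cj {G : Type} [Group G] (ρ : G →* M2) (P : M2) (hP : IsUnit P.det) : G →* M2 where
  toFun f := P⁻¹ * ρ f * P
  map_one' := by rw [map_one, mul_one, Matrix.nonsing_inv_mul P hP]
  map_mul' f g := by
    rw [map_mul]
    calc P⁻¹ * (ρ f * ρ g) * P = P⁻¹ * ρ f * (1 : M2) * ρ g * P := by
          simp only [mul_one, Matrix.mul_assoc]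
      _ = P⁻¹ * ρ f * (P * P⁻¹) * ρ g * P := by rw [Matrix.mul_nonsing_inv P hP]
      _ = _ := by simp only [Matrix.mul_assoc]

theorem cj_apply {G : Type} [Group G] (ρ : G →* M2) (P : M2) (hP : IsUnit P.det) (f : G) :
    cj ρ P hP f = P⁻¹ * ρ f * P := rfl

theorem cj_trace {G : Type} [Group G] (ρ : G →* M2) (P : M2) (hP : IsUnit P.det) (f : G) :
    (cj ρ P hP f).trace = (ρ f).trace := by
  rw [cj_apply, Matrix.mul_assoc, Matrix.trace_mul_comm, Matrix.mul_assoc,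
    Matrix.mul_nonsing_inv P hP, Matrix.mul_one]

theorem det_ne {G : Type} [Group G] (ρ : G →* M2) (f : G) : (ρ f).det ≠ 0 := by
  intro h
  have h1 : ρ f * ρ f⁻¹ = 1 := by rw [← map_mul, mul_inv_cancel, map_one]
  have h2 := congrArg Matrix.det h1
  rw [Matrix.det_mul, h, zero_mul, Matrix.det_one] at h2
  exact zero_ne_one h2

theorem inv_eq {G : Type} [Group G] (ρ : G →* M2) (f : G) : ρ f⁻¹ = (ρ f)⁻¹ := by
  symm
  apply Matrix.inv_eq_left_inv
  rw [← map_mul, inv_mul_cancel, map_one]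

theorem diag_pow (l m : ℝ) (n : ℕ) : (!![l, 0; 0, m] : M2) ^ n = !![l ^ n, 0; 0, m ^ n] := by
  induction n with
  | zero => simp [Matrix.one_fin_two]
  | succ n ih =>
    rw [pow_succ, ih]
    simp [pow_succ]

/-- The trace of a commutator with a diagonal matrix. -/
theorem trace_diag {G : Type} [Group G] (ρ : G →* M2) {a h : G} {l m p q r t : ℝ} (hl : l ≠ 0)
    (hm : m ≠ 0) (ha : ρ a = !![l, 0; 0, m]) (hh : ρ h = !![p, q; r, t]) (n : ℕ) :
    (ρ (a ^ n * h * (a ^ n)⁻¹ * h⁻¹)).trace =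
      (2 * (p * t) - q * r * ((l / m) ^ n + (m / l) ^ n)) / (p * t - q * r) := by
  have hdet : p * t - q * r ≠ 0 := by
    have := det_ne ρ h
    rwa [hh, Matrix.det_fin_two_of] at this
  have h1 : ρ (a ^ n)⁻¹ = !![(l ^ n)⁻¹, 0; 0, (m ^ n)⁻¹] := by
    rw [inv_eq, map_pow, ha, diag_pow]
    apply Matrix.inv_eq_left_inv
    have h2 : l ^ n ≠ 0 := pow_ne_zero n hl
    have h3 : m ^ n ≠ 0 := pow_ne_zero n hm
    simp [Matrix.one_fin_two, inv_mul_cancel₀ h2, inv_mul_cancel₀ h3]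
  obtain ⟨δ, hδ⟩ : ∃ δ, p * t - q * r = δ := ⟨_, rfl⟩
  rw [hδ] at hdet ⊢
  have h2 : ρ h⁻¹ = !![t / δ, -q / δ; -r / δ, p / δ] := by
    rw [inv_eq, hh]
    apply Matrix.inv_eq_left_inv
    rw [Matrix.one_fin_two]
    ext i j
    fin_cases i <;> fin_cases j <;> simp [Matrix.mul_apply, Fin.sum_univ_two] <;> field_simp <;>
      linarith
  rw [map_mul, map_mul, map_mul, h1, h2, hh, map_pow, ha, diag_pow, Matrix.trace_fin_two]
  have hln : l ^ n ≠ 0 := pow_ne_zero n hl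
  have hmn : m ^ n ≠ 0 := pow_ne_zero n hm
  simp [Matrix.mul_apply, Fin.sum_univ_two, div_pow]
  field_simp
  ring

theorem trace_large {G : Type} [Group G] (ρ : G →* M2) {a h : G} {l m : ℝ} {u s : Fin 2 → ℝ}
    (hm : m ≠ 0) (hlm : |m| < |l|) (hu : ρ a *ᵥ u = l • u) (hs : ρ a *ᵥ s = m • s)
    (hus : dd u s ≠ 0) (h1 : dd u (ρ h *ᵥ u) ≠ 0) (h2 : dd s (ρ h *ᵥ s) ≠ 0) :
    ∃ n : ℕ, 2 < |(ρ (a ^ n * h * (a ^ n)⁻¹ * h⁻¹)).trace| := by
  have hl : l ≠ 0 := by
    intro h0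
    rw [h0, abs_zero] at hlm
    exact absurd hlm (not_lt.mpr (abs_nonneg _))
  set P : M2 := !![u 0, s 0; u 1, s 1] with hPd
  have hPdet : P.det = dd u s := by
    rw [hPd, Matrix.det_fin_two_of, dd_apply]
    ring
  have hP : IsUnit P.det := by
    rw [hPdet]
    exact isUnit_iff_ne_zero.mpr hus
  have hu' : ∀ i, ρ a i 0 * u 0 + ρ a i 1 * u 1 = l * u i := by
    intro i
    have := congrFun hu i
    simpa [Matrix.mulVec, dotProduct, Fin.sum_univ_two] using this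
  have hs' : ∀ i, ρ a i 0 * s 0 + ρ a i 1 * s 1 = m * s i := by
    intro i
    have := congrFun hs i
    simpa [Matrix.mulVec, dotProduct, Fin.sum_univ_two] using this
  have ha : cj ρ P hP a = !![l, 0; 0, m] := by
    rw [cj_apply, Matrix.mul_assoc]
    have e1 : ρ a * P = P * !![l, 0; 0, m] := by
      have a0 := hu' 0
      have a1 := hu' 1
      have b0 := hs' 0
      have b1 := hs' 1
      ext i j
      fin_cases i <;> fin_cases j <;> simp [Matrix.mul_apply, Fin.sum_univ_two, hPd] <;> linarith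
    rw [e1, ← Matrix.mul_assoc, Matrix.nonsing_inv_mul P hP, Matrix.one_mul]
  obtain ⟨p, q, r, t, hh⟩ : ∃ p q r t : ℝ, cj ρ P hP h = !![p, q; r, t] :=
    ⟨_, _, _, _, Matrix.eta_fin_two _⟩
  have hHP : ρ h * P = P * !![p, q; r, t] := by
    rw [← hh, cj_apply, ← Matrix.mul_assoc, ← Matrix.mul_assoc, Matrix.mul_nonsing_inv P hP,
      Matrix.one_mul]
  have c1 : ∀ i, (ρ h *ᵥ u) i = p * u i + r * s i := by
    intro i
    have := congrFun (congrFun hHP i) 0
    fin_cases i <;> simp [Matrix.mul_apply, Fin.sum_univ_two, hPd, Matrix.mulVec, dotProduct]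
      at this ⊢ <;> linarith
  have c2 : ∀ i, (ρ h *ᵥ s) i = q * u i + t * s i := by
    intro i
    have := congrFun (congrFun hHP i) 1
    fin_cases i <;> simp [Matrix.mul_apply, Fin.sum_univ_two, hPd, Matrix.mulVec, dotProduct]
      at this ⊢ <;> linarith
  have hr : r ≠ 0 := by
    intro h0
    apply h1
    rw [dd_apply, c1, c1, h0]
    ring
  have hq : q ≠ 0 := by
    intro h0
    apply h2
    rw [dd_apply, c2, c2, h0]
    ring
  have hdet : p * t - q * r ≠ 0 := by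
    have := det_ne (cj ρ P hP) h
    rwa [hh, Matrix.det_fin_two_of] at this
  -- growth
  have hk : 1 < |l / m| := by
    rw [abs_div, one_lt_div (abs_pos.mpr hm)]
    exact hlm
  have hgrow : Tendsto (fun n : ℕ => |q * r| * (|l / m| ^ n - 1) - 2 * |p * t|) atTop atTop := by
    apply tendsto_atTop_add_const_right
    apply Tendsto.const_mul_atTop (abs_pos.mpr (mul_ne_zero hq hr))
    exact tendsto_atTop_add_const_right _ _ (tendsto_pow_atTop_atTop_of_one_lt hk)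
  obtain ⟨n, hn⟩ := (hgrow.eventually (eventually_gt_atTop (2 * |p * t - q * r|))).exists
  refine ⟨n, ?_⟩
  rw [← cj_trace ρ P hP, trace_diag (cj ρ P hP) hl hm ha hh n, abs_div,
    lt_div_iff₀ (abs_pos.mpr hdet)]
  refine lt_of_lt_of_le hn ?_
  have b1 : |(m / l) ^ n| ≤ 1 := by
    rw [abs_pow]
    apply pow_le_one₀ (abs_nonneg _)
    rw [abs_div, div_le_one (abs_pos.mpr hl)]
    exact hlm.le
  have b2 : |l / m| ^ n - 1 ≤ |(l / m) ^ n + (m / l) ^ n| := by
    have b3 := abs_sub_abs_le_abs_sub ((l / m) ^ n) (-(m / l) ^ n)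
    rw [abs_neg, sub_neg_eq_add, abs_pow (l / m)] at b3
    linarith
  have b4 : |q * r * ((l / m) ^ n + (m / l) ^ n)| - |2 * (p * t)| ≤
      |2 * (p * t) - q * r * ((l / m) ^ n + (m / l) ^ n)| := by
    rw [abs_sub_comm]
    exact abs_sub_abs_le_abs_sub _ _
  rw [abs_mul, abs_mul 2, abs_two] at b4
  have b5 : |q * r| * (|l / m| ^ n - 1) ≤ |q * r| * |(l / m) ^ n + (m / l) ^ n| :=
    mul_le_mul_of_nonneg_left b2 (abs_nonneg _)
  linarith

/-- An element with real eigenvalues of distinct absolute value. -/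
theorem exists_prox (hgen : S_gen) {G : Type} [Group G] (ρ : G →* M2) (hirr : StrIrr (linRep2 ρ))
    (hb : ¬ BddMod ρ) : ∃ a : G, 4 * |(ρ a).det| < (ρ a).trace ^ 2 := by
  unfold BddMod at hb
  push Not at hb
  have hseq : ∀ n : ℕ, ∃ (f : G) (i j : Fin 2), ((n : ℝ) + 1) * |(ρ f).det| < (ρ f i j) ^ 2 :=
    fun n => hb _
  choose f i j hf using hseq
  set A : ℕ → (Fin 2 → Fin 2 → ℝ) := fun n => ρ (f n) with hA
  have hc : ∀ n, 0 < ‖A n‖ := by
    intro n
    rw [norm_pos_iff]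
    intro h0
    have h1 := hf n
    have h2 : ρ (f n) (i n) (j n) = 0 := congrFun (congrFun h0 (i n)) (j n)
    rw [h2] at h1
    have := mul_nonneg (show (0 : ℝ) ≤ (n : ℝ) + 1 by positivity) (abs_nonneg (ρ (f n)).det)
    norm_num at h1
    linarith
  have hmem : ∀ n, (‖A n‖⁻¹ • A n) ∈ Metric.sphere (0 : Fin 2 → Fin 2 → ℝ) 1 := by
    intro n
    rw [mem_sphere_zero_iff_norm, norm_smul, norm_inv, norm_norm, inv_mul_cancel₀ (hc n).ne']
  obtain ⟨M, hM, φ, hφ, hlim⟩ := (isCompact_sphere (0 : Fin 2 → Fin 2 → ℝ) 1).tendsto_subseq hmem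
  have hM0 : M ≠ 0 := by
    intro h0
    rw [h0, mem_sphere_zero_iff_norm, norm_zero] at hM
    exact zero_ne_one hM
  have hent : ∀ i j, Tendsto (fun n => ‖A (φ n)‖⁻¹ * ρ (f (φ n)) i j) atTop (𝓝 (M i j)) := by
    intro i j
    have h1 := (tendsto_pi_nhds.mp (tendsto_pi_nhds.mp hlim i)) j
    exact h1
  -- the determinant of the limit
  have hdet0 : M 0 0 * M 1 1 - M 0 1 * M 1 0 = 0 := by
    have h1 : Tendsto (fun n => (‖A (φ n)‖⁻¹ * ρ (f (φ n)) 0 0) * (‖A (φ n)‖⁻¹ * ρ (f (φ n)) 1 1) -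
        (‖A (φ n)‖⁻¹ * ρ (f (φ n)) 0 1) * (‖A (φ n)‖⁻¹ * ρ (f (φ n)) 1 0)) atTop
        (𝓝 (M 0 0 * M 1 1 - M 0 1 * M 1 0)) :=
      ((hent 0 0).mul (hent 1 1)).sub ((hent 0 1).mul (hent 1 0))
    have h2 : Tendsto (fun n => (‖A (φ n)‖⁻¹ * ρ (f (φ n)) 0 0) * (‖A (φ n)‖⁻¹ * ρ (f (φ n)) 1 1) -
        (‖A (φ n)‖⁻¹ * ρ (f (φ n)) 0 1) * (‖A (φ n)‖⁻¹ * ρ (f (φ n)) 1 0)) atTop (𝓝 0) := by
      apply squeeze_zero_norm (a := fun n : ℕ => 1 / ((φ n : ℝ) + 1))
      · intro n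
        have e : (‖A (φ n)‖⁻¹ * ρ (f (φ n)) 0 0) * (‖A (φ n)‖⁻¹ * ρ (f (φ n)) 1 1) -
            (‖A (φ n)‖⁻¹ * ρ (f (φ n)) 0 1) * (‖A (φ n)‖⁻¹ * ρ (f (φ n)) 1 0) =
            (‖A (φ n)‖⁻¹) ^ 2 * (ρ (f (φ n))).det := by
          rw [Matrix.det_fin_two]
          ring
        rw [e, norm_mul, Real.norm_eq_abs (Matrix.det _), Real.norm_eq_abs, abs_pow, abs_inv, abs_norm]
        have h3 := hf (φ n)
        have h4 : (ρ (f (φ n)) (i (φ n)) (j (φ n))) ^ 2 ≤ ‖A (φ n)‖ ^ 2 := by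
          rw [← sq_abs]
          apply pow_le_pow_left₀ (abs_nonneg _)
          have h5 := norm_le_pi_norm (A (φ n)) (i (φ n))
          have h6 := norm_le_pi_norm (A (φ n) (i (φ n))) (j (φ n))
          exact (Real.norm_eq_abs _ ▸ h6).trans h5
        have hn0 : (0 : ℝ) < (φ n : ℝ) + 1 := by positivity
        rw [le_div_iff₀ hn0, inv_pow, mul_assoc, inv_mul_le_iff₀ (pow_pos (hc _) 2), mul_one]
        rw [mul_comm]
        exact h3.le.trans h4
      · have h5 : Tendsto (fun n : ℕ => 1 / ((n : ℝ) + 1)) atTop (𝓝 0) :=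
          tendsto_one_div_add_atTop_nhds_zero_nat
        exact h5.comp hφ.tendsto_atTop
    exact tendsto_nhds_unique h1 h2
  -- rank one
  obtain ⟨i₀, hi₀⟩ := Function.ne_iff.mp hM0
  obtain ⟨j₀, hj₀⟩ := Function.ne_iff.mp hi₀
  have hij : M i₀ j₀ ≠ 0 := hj₀
  set x : Fin 2 → ℝ := fun i => M i j₀ with hx
  set y : Fin 2 → ℝ := fun j => M i₀ j with hy
  have hrank : ∀ i j, M i₀ j₀ * M i j = x i * y j := by
    intro i j
    rw [hx, hy]
    fin_cases i <;> fin_cases j <;> fin_cases i₀ <;> fin_cases j₀ <;> simp <;> linarith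
  have hx0 : x ≠ 0 := fun h => hij (congrFun h i₀)
  set α : (Fin 2 → ℝ) →ₗ[ℝ] ℝ :=
    { toFun := fun v => y 0 * v 0 + y 1 * v 1
      map_add' := fun v w => by simp only [Pi.add_apply]; ring
      map_smul' := fun c v => by
        simp only [Pi.smul_apply, smul_eq_mul, RingHom.id_apply]; ring } with hα
  have hα0 : α ≠ 0 := by
    intro h0
    have h1 := LinearMap.congr_fun h0 (Pi.single j₀ 1)
    have h2 : y j₀ = 0 := by
      have : α (Pi.single j₀ 1) = y j₀ := by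
        rw [hα]
        simp only [LinearMap.coe_mk, AddHom.coe_mk]
        fin_cases j₀ <;> simp
      rw [← this, h1]
      rfl
    exact hij h2
  obtain ⟨h, hh, -⟩ := hgen G (Fin 2 → ℝ) (linRep2 ρ) hirr Unit Empty (fun _ => α) (fun _ => x)
    (fun e => e.elim) (fun e => e.elim) (fun _ => hα0) (fun _ => hx0) (fun e => e.elim)
    (fun e => e.elim)
  have hh1 : y 0 * (ρ h 0 0 * x 0 + ρ h 0 1 * x 1) + y 1 * (ρ h 1 0 * x 0 + ρ h 1 1 * x 1) ≠ 0 := by
    have := hh ()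
    simpa [linRep2, hα, Matrix.toLin'_apply, Matrix.mulVec, dotProduct, Fin.sum_univ_two] using this
  -- the traces
  have htr : Tendsto (fun n => ‖A (φ n)‖⁻¹ * (ρ (f (φ n) * h)).trace) atTop
      (𝓝 (M 0 0 * ρ h 0 0 + M 0 1 * ρ h 1 0 + (M 1 0 * ρ h 0 1 + M 1 1 * ρ h 1 1))) := by
    have h1 := (((hent 0 0).mul_const (ρ h 0 0)).add ((hent 0 1).mul_const (ρ h 1 0))).add
      (((hent 1 0).mul_const (ρ h 0 1)).add ((hent 1 1).mul_const (ρ h 1 1)))
    refine h1.congr fun n => ?_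
    rw [map_mul, Matrix.trace_fin_two, Matrix.mul_apply, Matrix.mul_apply, Fin.sum_univ_two,
      Fin.sum_univ_two]
    ring
  have htr0 : M 0 0 * ρ h 0 0 + M 0 1 * ρ h 1 0 + (M 1 0 * ρ h 0 1 + M 1 1 * ρ h 1 1) ≠ 0 := by
    intro h0
    apply hh1
    have e := congrArg (fun z => M i₀ j₀ * z) h0
    simp only [mul_zero] at e
    have r00 := hrank 0 0
    have r01 := hrank 0 1
    have r10 := hrank 1 0
    have r11 := hrank 1 1
    linear_combination e - ρ h 0 0 * r00 - ρ h 1 0 * r01 - ρ h 0 1 * r10 - ρ h 1 1 * r11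
  have hdt : Tendsto (fun n => (‖A (φ n)‖⁻¹) ^ 2 * (ρ (f (φ n) * h)).det) atTop (𝓝 0) := by
    have h1 : Tendsto (fun n => ((‖A (φ n)‖⁻¹ * ρ (f (φ n)) 0 0) * (‖A (φ n)‖⁻¹ * ρ (f (φ n)) 1 1) -
        (‖A (φ n)‖⁻¹ * ρ (f (φ n)) 0 1) * (‖A (φ n)‖⁻¹ * ρ (f (φ n)) 1 0)) * (ρ h).det) atTop
        (𝓝 ((M 0 0 * M 1 1 - M 0 1 * M 1 0) * (ρ h).det)) :=
      (((hent 0 0).mul (hent 1 1)).sub ((hent 0 1).mul (hent 1 0))).mul_const _
    rw [hdet0, zero_mul] at h1
    refine h1.congr fun n => ?_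
    rw [map_mul, Matrix.det_mul, Matrix.det_fin_two (ρ (f (φ n)))]
    ring
  have hfin : Tendsto (fun n => (‖A (φ n)‖⁻¹ * (ρ (f (φ n) * h)).trace) ^ 2 -
      4 * |(‖A (φ n)‖⁻¹) ^ 2 * (ρ (f (φ n) * h)).det|) atTop
      (𝓝 ((M 0 0 * ρ h 0 0 + M 0 1 * ρ h 1 0 + (M 1 0 * ρ h 0 1 + M 1 1 * ρ h 1 1)) ^ 2 -
        4 * |(0 : ℝ)|)) := (htr.pow 2).sub (hdt.abs.const_mul 4)
  rw [abs_zero, mul_zero, sub_zero] at hfin
  obtain ⟨n, hn⟩ := (hfin.eventually (lt_mem_nhds (sq_pos_of_ne_zero htr0))).exists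
  refine ⟨f (φ n) * h, ?_⟩
  rw [abs_mul, abs_of_pos (pow_pos (inv_pos.mpr (hc _)) 2), mul_pow] at hn
  have hp : 0 < (‖A (φ n)‖⁻¹) ^ 2 := pow_pos (inv_pos.mpr (hc _)) 2
  have h3 : 0 < (‖A (φ n)‖⁻¹) ^ 2 * ((ρ (f (φ n) * h)).trace ^ 2 - 4 * |(ρ (f (φ n) * h)).det|) := by
    linarith
  have h4 := (mul_pos_iff_of_pos_left hp).mp h3
  linarith

theorem hyp2 (hgen : S_gen) : S_hyp2 := by
  intro G _ ρ hirr hb
  -- first derived group
  have hDS1 : derivedSeries G 1 = ⁅(⊤ : Subgroup G), ⊤⁆ := by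
    rw [derivedSeries_succ, derivedSeries_zero]
  -- first step
  obtain ⟨a, ha⟩ := exists_prox hgen ρ hirr hb
  obtain ⟨l, m, u, s, hlm, hsum, hprod, hu, hs, hau, has⟩ := eigen_pair (ρ a) ha
  have hm : m ≠ 0 := by
    intro h0
    apply det_ne ρ a
    rw [← hprod, h0, mul_zero]
  have hne : l ≠ m := fun h0 => by rw [h0] at hlm; exact lt_irrefl _ hlm
  have hus := dd_ne_of_eigen hne hu hs hau has
  obtain ⟨h, hh, -⟩ := hgen G (Fin 2 → ℝ) (linRep2 ρ) hirr (Fin 2) Empty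
    (fun i => dd (![u, s] i)) (fun i => ![u, s] i) (fun e => e.elim) (fun e => e.elim)
    (fun i => by fin_cases i; exacts [dd_ne_zero hu, dd_ne_zero hs])
    (fun i => by fin_cases i; exacts [hu, hs]) (fun e => e.elim) (fun e => e.elim)
  have hlin : ∀ (g : G) (v : Fin 2 → ℝ), linRep2 ρ g v = ρ g *ᵥ v := fun g v =>
    Matrix.toLin'_apply _ _
  obtain ⟨n, hn⟩ := trace_large ρ hm hlm hau has hus
    (by have := hh 0; rwa [hlin] at this) (by have := hh 1; rwa [hlin] at this)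
  set c : G := a ^ n * h * (a ^ n)⁻¹ * h⁻¹ with hc
  have hcmem : c ∈ derivedSeries G 1 := by
    rw [hDS1]
    exact Subgroup.commutator_mem_commutator (Subgroup.mem_top _) (Subgroup.mem_top _)
  have hcdet : (ρ c).det = 1 := by
    rw [hc, map_mul, map_mul, map_mul, Matrix.det_mul, Matrix.det_mul, Matrix.det_mul]
    have e1 : (ρ (a ^ n)).det * (ρ (a ^ n)⁻¹).det = 1 := by
      rw [← Matrix.det_mul, ← map_mul, mul_inv_cancel, map_one, Matrix.det_one]
    have e2 : (ρ h).det * (ρ h⁻¹).det = 1 := by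
      rw [← Matrix.det_mul, ← map_mul, mul_inv_cancel, map_one, Matrix.det_one]
    linear_combination (ρ h).det * (ρ h⁻¹).det * e1 + e2
  have hcdisc : 4 * |(ρ c).det| < (ρ c).trace ^ 2 := by
    rw [hcdet, abs_one, ← sq_abs]
    nlinarith [abs_nonneg (ρ c).trace]
  obtain ⟨l', m', u', s', hlm', hsum', hprod', hu', hs', hcu, hcs⟩ := eigen_pair (ρ c) hcdisc
  have hm' : m' ≠ 0 := by
    intro h0
    apply det_ne ρ c
    rw [← hprod', h0, mul_zero]
  have hne' : l' ≠ m' := fun h0 => by rw [h0] at hlm'; exact lt_irrefl _ hlm'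
  have hus' := dd_ne_of_eigen hne' hu' hs' hcu hcs
  -- the second conjugating element
  obtain ⟨k, hk, -⟩ := hgen G (Fin 2 → ℝ) (linRep2 ρ) hirr (Fin 2 × Fin 2) Empty
    (fun i => dd (![u', s'] i.1)) (fun i => ![u', s'] i.2) (fun e => e.elim) (fun e => e.elim)
    (fun i => by
      obtain ⟨i1, i2⟩ := i
      fin_cases i1
      exacts [dd_ne_zero hu', dd_ne_zero hs'])
    (fun i => by
      obtain ⟨i1, i2⟩ := i
      fin_cases i2
      exacts [hu', hs']) (fun e => e.elim) (fun e => e.elim)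
  have k00 : dd u' (ρ k *ᵥ u') ≠ 0 := by have := hk (0, 0); rwa [hlin] at this
  have k01 : dd u' (ρ k *ᵥ s') ≠ 0 := by have := hk (0, 1); rwa [hlin] at this
  have k10 : dd s' (ρ k *ᵥ u') ≠ 0 := by have := hk (1, 0); rwa [hlin] at this
  have k11 : dd s' (ρ k *ᵥ s') ≠ 0 := by have := hk (1, 1); rwa [hlin] at this
  set h' : G := k * c * k⁻¹ with hh'
  have hh'mem : h' ∈ derivedSeries G 1 :=
    (derivedSeries_normal G 1).conj_mem c hcmem k
  set U := ρ k *ᵥ u' with hU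
  set S := ρ k *ᵥ s' with hS
  have hU' : ρ h' *ᵥ U = l' • U := by
    rw [hU, Matrix.mulVec_mulVec, ← map_mul, hh']
    have e1 : k * c * k⁻¹ * k = k * c := by group
    rw [e1, map_mul, ← Matrix.mulVec_mulVec, hcu, Matrix.mulVec_smul]
  have hS' : ρ h' *ᵥ S = m' • S := by
    rw [hS, Matrix.mulVec_mulVec, ← map_mul, hh']
    have e1 : k * c * k⁻¹ * k = k * c := by group
    rw [e1, map_mul, ← Matrix.mulVec_mulVec, hcs, Matrix.mulVec_smul]
  have hU0 : U ≠ 0 := by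
    intro h0
    apply k00
    rw [h0]
    exact map_zero _
  have hS0 : S ≠ 0 := by
    intro h0
    apply k01
    rw [h0]
    exact map_zero _
  have hUS := dd_ne_of_eigen hne' hU0 hS0 hU' hS'
  -- a vector transversal to both axes of `h'` is moved
  have hmove : ∀ v : Fin 2 → ℝ, dd v U ≠ 0 → dd v S ≠ 0 → dd v (ρ h' *ᵥ v) ≠ 0 := by
    intro v hvU hvS
    -- `dd U S • v = dd v S • U - dd v U • S`
    have e0 : (dd U S) • v = (dd v S) • U - (dd v U) • S := by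
      ext i
      simp only [Pi.smul_apply, Pi.sub_apply, smul_eq_mul, dd_apply]
      fin_cases i <;> simp <;> ring
    have e1 : (dd U S) • (ρ h' *ᵥ v) = (dd v S * l') • U - (dd v U * m') • S := by
      rw [← Matrix.mulVec_smul, e0, Matrix.mulVec_sub, Matrix.mulVec_smul, Matrix.mulVec_smul, hU',
        hS', smul_smul, smul_smul]
    intro h0
    have e2 : dd v ((dd U S) • (ρ h' *ᵥ v)) = 0 := by rw [map_smul, h0, smul_zero]
    rw [e1, map_sub, map_smul, map_smul, smul_eq_mul, smul_eq_mul] at e2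
    have e3 : dd v S * dd v U * (l' - m') = 0 := by linear_combination e2
    exact mul_ne_zero (mul_ne_zero hvS hvU) (sub_ne_zero.mpr hne') e3
  have m1 := hmove u' k00 k01
  have m2 := hmove s' k10 k11
  obtain ⟨n', hn'⟩ := trace_large ρ hm' hlm' hcu hcs hus' m1 m2
  set c' : G := c ^ n' * h' * (c ^ n')⁻¹ * h'⁻¹ with hc'
  have hc'mem : c' ∈ derivedSeries G 2 := by
    rw [derivedSeries_succ]
    exact Subgroup.commutator_mem_commutator ((derivedSeries G 1).pow_mem hcmem n') hh'mem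
  have hc'det : (ρ c').det = 1 := by
    rw [hc', map_mul, map_mul, map_mul, Matrix.det_mul, Matrix.det_mul, Matrix.det_mul]
    have e1 : (ρ (c ^ n')).det * (ρ (c ^ n')⁻¹).det = 1 := by
      rw [← Matrix.det_mul, ← map_mul, mul_inv_cancel, map_one, Matrix.det_one]
    have e2 : (ρ h').det * (ρ h'⁻¹).det = 1 := by
      rw [← Matrix.det_mul, ← map_mul, mul_inv_cancel, map_one, Matrix.det_one]
    linear_combination (ρ h').det * (ρ h'⁻¹).det * e1 + e2
  refine ⟨c' * c', (derivedSeries G 2).mul_mem hc'mem hc'mem, ?_⟩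
  have hfdet : (ρ (c' * c')).det = 1 := by rw [map_mul, Matrix.det_mul, hc'det, one_mul]
  have hftr : (ρ (c' * c')).trace = (ρ c').trace ^ 2 - 2 := by
    rw [Matrix.det_fin_two] at hc'det
    rw [map_mul, Matrix.trace_fin_two, Matrix.trace_fin_two, Matrix.mul_apply, Matrix.mul_apply,
      Fin.sum_univ_two, Fin.sum_univ_two]
    linear_combination (-2 : ℝ) * hc'det
  have hf2 : 2 < (ρ (c' * c')).trace := by
    rw [hftr, ← sq_abs]
    nlinarith
  obtain ⟨μ, ν, p, q, hμν, hs1, hp1, hp, hq, hfp, hfq⟩ := eigen_pair (ρ (c' * c')) (by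
    rw [hfdet, abs_one]
    nlinarith)
  rw [hfdet] at hp1
  have hμ0 : μ ≠ 0 := fun h0 => by rw [h0, zero_mul] at hp1; exact zero_ne_one hp1
  have hν : ν = μ⁻¹ := eq_inv_of_mul_eq_one_right hp1
  have hμpos : 0 < μ := by
    by_contra hcon
    have h1 : μ < 0 := lt_of_le_of_ne (not_lt.mp hcon) hμ0
    have h2 : ν < 0 := by rw [hν]; exact inv_lt_zero.mpr h1
    linarith
  have hνpos : 0 < ν := by rw [hν]; exact inv_pos.mpr hμpos
  refine ⟨p, q, μ, ?_, hp, hq, hfp, by rw [← hν]; exact hfq⟩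
  rw [abs_of_pos hμpos, abs_of_pos hνpos] at hμν
  by_contra hcon
  rw [not_lt] at hcon
  have : μ * ν < 1 := by nlinarith
  linarith

end Pool.Agent.Helper3.K3.hyp2
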