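import Pool.Agent.Helper77.K3.DefsII

/-!
# Periodicity of the heights
-/

set_option autoImplicit false
set_option linter.unusedSectionVars false
set_option linter.unusedVariables false
set_option linter.dupNamespace false

open Set Filter Topology Matrix

namespace Pool.Agent.Helper3.K3.per

open Pool.Agent.Helper77.K3

/-- Determinant modulo `e 0`. -/
def dt (v w : E) : ℝ := v 1 * w 2 - v 2 * w 1

theorem e00 : (e 0 : E) 0 = 1 := by simp [e]
theorem e01 : (e 0 : E) 1 = 0 := by simp [e]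
theorem e02 : (e 0 : E) 2 = 0 := by simp [e]

theorem indep {a b c : E} (h : Ind3 a b c) {x y z : ℝ} (h0 : x • a + y • b + z • c = 0) :
    x = 0 ∧ y = 0 ∧ z = 0 := by
  have h1 := Fintype.linearIndependent_iff.mp h ![x, y, z] (by
    rw [Fin.sum_univ_three]
    exact h0)
  exact ⟨h1 0, h1 1, h1 2⟩

theorem dt_ne {v w : E} (h : Ind3 (e 0) v w) : dt v w ≠ 0 := by
  intro h0
  have h1 : (-(v 1 * w 0 - w 1 * v 0)) • e 0 + (-w 1) • v + (v 1) • w = 0 := by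
    ext i
    fin_cases i
    · simp [e00]; ring
    · simp [e01]; ring
    · simp [e02]
      unfold dt at h0
      linarith
  have h2 : (-(v 2 * w 0 - w 2 * v 0)) • e 0 + (-w 2) • v + (v 2) • w = 0 := by
    ext i
    fin_cases i
    · simp [e00]; ring
    · simp [e01]
      unfold dt at h0
      linarith
    · simp [e02]; ring
  have h3 := (indep h h1).2.2
  have h4 := (indep h h2).2.2
  have h5 : (v 0) • e 0 + (-1 : ℝ) • v + (0 : ℝ) • w = 0 := by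
    ext i
    fin_cases i
    · simp [e00]
    · simp [e01, h3]
    · simp [e02, h4]
  have h6 := (indep h h5).2.1
  norm_num at h6

/-- Expansion in the basis `e 0`, `v`, `w`. -/
theorem expand {v w : E} (h : dt v w ≠ 0) (x : E) :
    x = (x 0 - dt x w / dt v w * v 0 - dt v x / dt v w * w 0) • e 0 + (dt x w / dt v w) • v +
      (dt v x / dt v w) • w := by
  have h1 : dt x w / dt v w * dt v w = dt x w := div_mul_cancel₀ _ h
  have h2 : dt v x / dt v w * dt v w = dt v x := div_mul_cancel₀ _ h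
  ext i
  fin_cases i
  · simp [e00]; ring
  · simp only [Fin.mk_one, Fin.isValue, Pi.add_apply, Pi.smul_apply, smul_eq_mul, e01, mul_zero,
      zero_add]
    rw [div_mul_eq_mul_div, div_mul_eq_mul_div, ← add_div, eq_div_iff h]
    unfold dt
    ring
  · simp only [Fin.reduceFinMk, Fin.isValue, Pi.add_apply, Pi.smul_apply, smul_eq_mul, e02,
      mul_zero, zero_add]
    rw [div_mul_eq_mul_div, div_mul_eq_mul_div, ← add_div, eq_div_iff h]
    unfold dt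
    ring

theorem plane (hF2 : S_F2) (D : KData) (p u : E) (hu : u 1 ≠ 0 ∨ u 2 ≠ 0) :
    ∃ t a : ℝ, p + t • e 0 + a • u ∈ D.Ω := by
  obtain ⟨x, hx, h1⟩ := hF2 D ![0, u 2, -u 1] (u 2 * p 1 - u 1 * p 2) (by
    intro h0
    have h1 := congrFun h0 1
    have h2 := congrFun h0 2
    simp at h1 h2
    rcases hu with h | h
    · exact h h2
    · exact h h1)
  simp at h1
  have key : ∃ a : ℝ, x 1 - p 1 = a * u 1 ∧ x 2 - p 2 = a * u 2 := by
    rcases hu with h | h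
    · refine ⟨(x 1 - p 1) / u 1, by field_simp, ?_⟩
      field_simp
      linarith
    · refine ⟨(x 2 - p 2) / u 2, ?_, by field_simp⟩
      field_simp
      linarith
  obtain ⟨a, ha1, ha2⟩ := key
  refine ⟨x 0 - p 0 - a * u 0, a, ?_⟩
  convert hx using 1
  ext i
  fin_cases i
  · simp [e00]; ring
  · simp [e01]; linarith
  · simp [e02]; linarith

theorem dt_left {v w : E} (h : dt v w ≠ 0) : v 1 ≠ 0 ∨ v 2 ≠ 0 := by
  by_contra hcon
  push Not at hcon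
  apply h
  unfold dt
  rw [hcon.1, hcon.2]
  ring

theorem hs_ne_univ (hF2 : S_F2) (D : KData) (p u : E) (hu : u 1 ≠ 0 ∨ u 2 ≠ 0) :
    D.hs p u ≠ univ := by
  intro h0
  obtain ⟨t, a, hta⟩ := plane hF2 D p u hu
  have h1 : t ∈ D.hs p u := by rw [h0]; exact mem_univ t
  exact h1 a hta

theorem hs_closed (hK : S_K) (D : KData) (p u : E) : IsClosed (D.hs p u) := by
  have h1 : D.hs p u = ⋂ a : ℝ, (fun t : ℝ => p + t • e 0 + a • u) ⁻¹' D.K := by
    ext t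
    simp [KData.hs]
  rw [h1]
  apply isClosed_iInter
  intro a
  exact (hK D).1.preimage (by fun_prop)

section

variable {D : KData} {γ : Aff3} {μ : ℝ} {p u s : E}

theorem inv_pow_tendsto (hμ : 1 < μ) : Tendsto (fun n : ℕ => μ⁻¹ ^ n) atTop (𝓝 0) :=
  tendsto_pow_atTop_nhds_zero_of_lt_one (inv_nonneg.mpr (by linarith))
    (inv_lt_one_of_one_lt₀ hμ)

theorem pow_mul_inv_pow (hμ : 1 < μ) (n : ℕ) : μ ^ n * μ⁻¹ ^ n = 1 := by
  rw [← mul_pow, mul_inv_cancel₀ (by linarith), one_pow]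

theorem powc (hf : S_frame) (h : HypF γ μ 0 p u s) (n : ℕ) (x a b : ℝ) :
    (γ ^ n) (p + x • e 0 + a • u + b • s) =
      p + x • e 0 + (μ ^ n * a) • u + (μ⁻¹ ^ n * b) • s := by
  have := hf.1 γ μ 0 p u s h n x a b
  rwa [mul_zero, add_zero] at this

theorem cof (hf : S_frame) (h : HypF γ μ 0 p u s) :
    Tendsto (fun n : ℕ => γ ^ n) atTop cofinite := by
  rw [← Nat.cofinite_eq_atTop]
  apply Function.Injective.tendsto_cofinite
  intro n m hnm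
  simp only at hnm
  have h1 := powc hf h n 0 1 0
  have h2 := powc hf h m 0 1 0
  rw [hnm, h2] at h1
  have h3 : (0 : ℝ) • e 0 + (μ ^ m - μ ^ n) • u + (0 : ℝ) • s = 0 := by
    have h4 : p + (0 : ℝ) • e 0 + (μ ^ m * 1) • u + (μ⁻¹ ^ m * 0) • s -
        (p + (0 : ℝ) • e 0 + (μ ^ n * 1) • u + (μ⁻¹ ^ n * 0) • s) = 0 := by
      rw [h1, sub_self]
    rw [← h4]
    module
  have h5 := (indep h.2.2.2.2.2 h3).2.1
  have h6 : μ ^ m = μ ^ n := by linarith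
  exact (pow_right_injective₀ (by linarith [h.1]) (by linarith [h.1])).eq_iff.mp h6.symm

theorem pow_mem (hγ : γ ∈ D.Γ) (n : ℕ) : γ ^ n ∈ D.Γ := D.Γ.pow_mem hγ n

theorem stable_or (hf : S_frame) (hP1 : S_P1) (hγ : γ ∈ D.Γ) (h : HypF γ μ 0 p u s) (t : ℝ) :
    t ∈ D.hs p u ∨ t ∈ D.hs p s := by
  by_contra hcon
  push Not at hcon
  obtain ⟨hu, hs⟩ := hcon
  simp only [KData.hs, mem_ofPred_eq, not_forall] at hu hs
  obtain ⟨a, ha⟩ := hu
  obtain ⟨b, hb⟩ := hs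
  have hi := inv_pow_tendsto h.1
  have h1 : Tendsto (fun n : ℕ => p + t • e 0 + (μ⁻¹ ^ n * a) • u + b • s) atTop
      (𝓝 (p + t • e 0 + (0 * a) • u + b • s)) :=
    ((tendsto_const_nhds (x := p + t • e 0)).add ((hi.mul_const a).smul_const u)).add_const _
  have h2 : Tendsto (fun n : ℕ => (γ ^ n) (p + t • e 0 + (μ⁻¹ ^ n * a) • u + b • s)) atTop
      (𝓝 (p + t • e 0 + a • u + (0 * b) • s)) := by
    have h3 : ∀ n : ℕ, (γ ^ n) (p + t • e 0 + (μ⁻¹ ^ n * a) • u + b • s) =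
        p + t • e 0 + a • u + (μ⁻¹ ^ n * b) • s := by
      intro n
      rw [powc hf h n, ← mul_assoc, pow_mul_inv_pow h.1, one_mul]
    simp_rw [h3]
    exact (tendsto_const_nhds (x := p + t • e 0 + a • u)).add ((hi.mul_const b).smul_const s)
  rcases hP1 D (fun n => γ ^ n) _ _ _ (fun n => pow_mem hγ n) (cof hf h) h1 h2 with h4 | h4
  · apply hb
    rw [zero_mul, zero_smul, add_zero] at h4
    exact h4
  · apply ha
    rw [zero_mul, zero_smul, add_zero] at h4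
    exact h4

/-- Transport of a line by the powers of a hyperbolic element. -/
theorem transport (hf : S_frame) (hK : S_K) (hγ : γ ∈ D.Γ) (h : HypF γ μ 0 p u s)
    {w v : E} (hline : ∀ r : ℝ, w + r • v ∈ D.K) {r₀ ht b₀ : ℝ}
    (hint : w + r₀ • v = p + ht • e 0 + b₀ • s) (hv : dt v s ≠ 0) (y : ℝ) :
    p + ht • e 0 + y • u ∈ D.K := by
  have hus : dt u s ≠ 0 := dt_ne h.2.2.2.2.2
  obtain ⟨v0, v1, v2, hv1, hvv⟩ : ∃ v0 v1 v2 : ℝ, v1 ≠ 0 ∧ v = v0 • e 0 + v1 • u + v2 • s :=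
    ⟨_, _, _, div_ne_zero hv hus, expand hus v⟩
  have hi := inv_pow_tendsto h.1
  have h1 : ∀ n : ℕ, p + (ht + μ⁻¹ ^ n * (y / v1) * v0) • e 0 + y • u +
      (μ⁻¹ ^ n * (b₀ + μ⁻¹ ^ n * (y / v1) * v2)) • s ∈ D.K := by
    intro n
    have h2 := hline (r₀ + μ⁻¹ ^ n * (y / v1))
    have h3 : w + (r₀ + μ⁻¹ ^ n * (y / v1)) • v =
        p + (ht + μ⁻¹ ^ n * (y / v1) * v0) • e 0 + (μ⁻¹ ^ n * y) • u +
          (b₀ + μ⁻¹ ^ n * (y / v1) * v2) • s := by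
      have h4 : μ⁻¹ ^ n * y = μ⁻¹ ^ n * (y / v1) * v1 := by field_simp
      rw [h4, add_smul, ← add_assoc, hint, hvv]
      module
    rw [h3] at h2
    have h5 := ((hK D).2 (γ ^ n) (pow_mem hγ n) _).mpr h2
    rw [powc hf h n, ← mul_assoc, pow_mul_inv_pow h.1, one_mul] at h5
    exact h5
  have h6 : Tendsto (fun n : ℕ => p + (ht + μ⁻¹ ^ n * (y / v1) * v0) • e 0 + y • u +
      (μ⁻¹ ^ n * (b₀ + μ⁻¹ ^ n * (y / v1) * v2)) • s) atTop
      (𝓝 (p + (ht + 0 * (y / v1) * v0) • e 0 + y • u + (0 * (b₀ + 0 * (y / v1) * v2)) • s)) := by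
    apply Tendsto.add
    · apply Tendsto.add_const
      apply Tendsto.const_add
      apply Tendsto.smul_const
      exact ((hi.mul_const _).mul_const _).const_add _
    · apply Tendsto.smul_const
      exact hi.mul (((hi.mul_const _).mul_const _).const_add _)
  have h7 := (hK D).1.mem_of_tendsto h6 (Eventually.of_forall h1)
  simpa using h7

end


theorem linear_apply (hco : S_coord) (γ : Aff3) (x : E) (i : Fin 3) :
    γ.linear x i = lin γ i 0 * x 0 + lin γ i 1 * x 1 + lin γ i 2 * x 2 := by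
  rw [hco.2.2.2.2.2.2.2.2.1]
  simp [Matrix.mulVec, dotProduct, Fin.sum_univ_three, mat]

theorem linear_e0 {γ : Aff3} (h00 : lin γ 0 0 = 1) (h10 : lin γ 1 0 = 0) (h20 : lin γ 2 0 = 0) :
    γ.linear (e 0) = e 0 := by
  ext i
  fin_cases i
  · change lin γ 0 0 = _
    rw [h00]; exact e00.symm
  · change lin γ 1 0 = _
    rw [h10]; exact e01.symm
  · change lin γ 2 0 = _
    rw [h20]; exact e02.symm

theorem exists_mu {T : ℝ} (hT : 2 < T) : ∃ μ : ℝ, 1 < μ ∧ T = μ + μ⁻¹ := by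
  have hD : 0 < T ^ 2 - 4 := by nlinarith
  set r := Real.sqrt (T ^ 2 - 4) with hr
  have hr2 : r ^ 2 = T ^ 2 - 4 := Real.sq_sqrt hD.le
  have hr0 : 0 < r := Real.sqrt_pos.mpr hD
  refine ⟨(T + r) / 2, by linarith, ?_⟩
  have h1 : ((T + r) / 2)⁻¹ = (T - r) / 2 := by
    apply inv_eq_of_mul_eq_one_right
    nlinarith
  rw [h1]
  ring

theorem map_add_e0 {γ : Aff3} (h : γ.linear (e 0) = e 0) (q : E) (x : ℝ) :
    γ (q + x • e 0) = γ q + x • e 0 := by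
  have h1 := γ.map_vadd q (x • e 0)
  simp only [vadd_eq_add] at h1
  rw [add_comm q, h1, map_smul, h, add_comm]

theorem exists_fix (hf : S_frame) (hco : S_coord) {D : KData} {δ : Aff3} (hδ : δ ∈ D.Γ)
    (hc : ∀ δ ∈ D.Γ, ∀ ν c q v w, HypF δ ν c q v w → c = 0)
    (h00 : lin δ 0 0 = 1) (h10 : lin δ 1 0 = 0) (h20 : lin δ 2 0 = 0)
    (hdet : lin δ 1 1 * lin δ 2 2 - lin δ 1 2 * lin δ 2 1 = 1)
    (htr : 2 < |lin δ 1 1 + lin δ 2 2|) : ∃ q, δ q = q := by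
  rcases lt_abs.mp htr with h | h
  · obtain ⟨μ, hμ, hT⟩ := exists_mu h
    obtain ⟨c, p, u, s, hH⟩ := hf.2.2.2.2.2 δ μ h00 h10 h20 hμ hT hdet
    have h0 := hc δ hδ _ _ _ _ _ hH
    have h1 := hH.2.2.2.2.1
    rw [h0, zero_smul, add_zero] at h1
    exact ⟨p, h1⟩
  · have hmul := hco.2.1 δ δ
    have g00 : lin (δ * δ) 0 0 = 1 := by rw [hmul, h00, h10, h20]; ring
    have g10 : lin (δ * δ) 1 0 = 0 := by rw [hmul, h10, h20]; ring
    have g20 : lin (δ * δ) 2 0 = 0 := by rw [hmul, h10, h20]; ring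
    have gdet : lin (δ * δ) 1 1 * lin (δ * δ) 2 2 - lin (δ * δ) 1 2 * lin (δ * δ) 2 1 = 1 := by
      rw [hmul, hmul, hmul, hmul, h10, h20]
      linear_combination (lin δ 1 1 * lin δ 2 2 - lin δ 1 2 * lin δ 2 1 + 1) * hdet
    have gtr : lin (δ * δ) 1 1 + lin (δ * δ) 2 2 = (lin δ 1 1 + lin δ 2 2) ^ 2 - 2 := by
      rw [hmul, hmul, h10, h20]
      linear_combination (-2 : ℝ) * hdet
    have gT : 2 < lin (δ * δ) 1 1 + lin (δ * δ) 2 2 := by
      rw [gtr]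
      nlinarith
    obtain ⟨μ, hμ, hT⟩ := exists_mu gT
    obtain ⟨c, q, v, w, hH⟩ := hf.2.2.2.2.2 (δ * δ) μ g00 g10 g20 hμ hT gdet
    have h0 := hc (δ * δ) (D.Γ.mul_mem hδ hδ) _ _ _ _ _ hH
    subst h0
    have hq := hH.2.2.2.2.1
    rw [zero_smul, add_zero] at hq
    have hL := linear_e0 h00 h10 h20
    have hvw : dt v w ≠ 0 := dt_ne hH.2.2.2.2.2
    obtain ⟨x0, x1, x2, hx⟩ : ∃ x0 x1 x2 : ℝ, δ q - q = x0 • e 0 + x1 • v + x2 • w :=
      ⟨_, _, _, expand hvw _⟩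
    have hδq : δ q = q + x0 • e 0 + x1 • v + x2 • w := by
      have : δ q = q + (δ q - q) := by abel
      rw [this, hx]
      module
    have h2 : (δ * δ) (δ q) = δ q := by
      have e1 : (δ * δ) (δ q) = δ ((δ * δ) q) := rfl
      rw [e1, hq]
    have h3 := powc hf hH 1 x0 x1 x2
    rw [pow_one, pow_one, pow_one, ← hδq, h2, hδq] at h3
    have h4 : (0 : ℝ) • e 0 + (x1 - μ * x1) • v + (x2 - μ⁻¹ * x2) • w = 0 := by
      have h5 : q + x0 • e 0 + x1 • v + x2 • w -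
          (q + x0 • e 0 + (μ * x1) • v + (μ⁻¹ * x2) • w) = 0 := by
        rw [← h3, sub_self]
      rw [← h5]
      module
    obtain ⟨-, h5, h6⟩ := indep hH.2.2.2.2.2 h4
    have hx1 : x1 = 0 := by
      have : x1 * (1 - μ) = 0 := by linarith
      exact (mul_eq_zero.mp this).resolve_right (by linarith)
    have hμi : μ⁻¹ < 1 := inv_lt_one_of_one_lt₀ hμ
    have hx2 : x2 = 0 := by
      have : x2 * (1 - μ⁻¹) = 0 := by linarith
      exact (mul_eq_zero.mp this).resolve_right (by linarith)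
    rw [hx1, hx2, zero_smul, zero_smul, add_zero, add_zero] at hδq
    have h7 : (δ * δ) q = q + x0 • e 0 + x0 • e 0 := by
      have e1 : (δ * δ) q = δ (δ q) := rfl
      rw [e1, hδq, map_add_e0 hL, hδq]
    rw [hq] at h7
    have h8 := congrFun h7 0
    simp [e00] at h8
    have h9 : x0 = 0 := by linarith
    exact ⟨q, by rw [hδq, h9, zero_smul, add_zero]⟩

/-- Entries of a hyperbolic element. -/
theorem entries (hco : S_coord) {γ : Aff3} {μ c : ℝ} {p u s : E} (h : HypF γ μ c p u s) :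
    lin γ 0 0 = 1 ∧ lin γ 1 0 = 0 ∧ lin γ 2 0 = 0 ∧
    (∀ i : Fin 3, i ≠ 0 → lin γ i 1 * dt u s = μ * u i * s 2 - μ⁻¹ * s i * u 2 ∧
      lin γ i 2 * dt u s = -(μ * u i * s 1) + μ⁻¹ * s i * u 1) := by
  have h0 := h.2.1
  have g0 : lin γ 0 0 = 1 := by
    have : lin γ 0 0 = (e 0 : E) 0 := congrFun h0 0
    rw [this, e00]
  have g1 : lin γ 1 0 = 0 := by
    have : lin γ 1 0 = (e 0 : E) 1 := congrFun h0 1
    rw [this, e01]
  have g2 : lin γ 2 0 = 0 := by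
    have : lin γ 2 0 = (e 0 : E) 2 := congrFun h0 2
    rw [this, e02]
  refine ⟨g0, g1, g2, ?_⟩
  intro i hi
  have gi : lin γ i 0 = 0 := by
    fin_cases i
    · exact absurd rfl hi
    · exact g1
    · exact g2
  have a1 : lin γ i 1 * u 1 + lin γ i 2 * u 2 = μ * u i := by
    have := linear_apply hco γ u i
    rw [h.2.2.1, gi, zero_mul, zero_add] at this
    rw [← this]
    simp
  have a2 : lin γ i 1 * s 1 + lin γ i 2 * s 2 = μ⁻¹ * s i := by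
    have := linear_apply hco γ s i
    rw [h.2.2.2.1, gi, zero_mul, zero_add] at this
    rw [← this]
    simp
  unfold dt
  constructor
  · linear_combination s 2 * a1 - u 2 * a2
  · linear_combination u 1 * a2 - s 1 * a1

theorem block_det (hco : S_coord) {γ : Aff3} {μ c : ℝ} {p u s : E} (h : HypF γ μ c p u s) :
    lin γ 1 1 * lin γ 2 2 - lin γ 1 2 * lin γ 2 1 = 1 := by
  obtain ⟨-, -, -, h1⟩ := entries hco h
  obtain ⟨a1, a2⟩ := h1 1 (by decide)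
  obtain ⟨b1, b2⟩ := h1 2 (by decide)
  have hus : dt u s ≠ 0 := dt_ne h.2.2.2.2.2
  have hμ : μ * μ⁻¹ = 1 := mul_inv_cancel₀ (by linarith [h.1])
  have h2 : (lin γ 1 1 * lin γ 2 2 - lin γ 1 2 * lin γ 2 1 - 1) * (dt u s) ^ 2 = 0 := by
    have e1 : (lin γ 1 1 * lin γ 2 2 - lin γ 1 2 * lin γ 2 1) * (dt u s) ^ 2 =
        (lin γ 1 1 * dt u s) * (lin γ 2 2 * dt u s) -
          (lin γ 1 2 * dt u s) * (lin γ 2 1 * dt u s) := by ring
    rw [sub_mul, e1, a1, a2, b1, b2]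
    unfold dt
    linear_combination (u 1 * s 2 - u 2 * s 1) ^ 2 * hμ
  have h3 := (mul_eq_zero.mp h2).resolve_right (pow_ne_zero 2 hus)
  linarith

theorem trace_prod (hco : S_coord) {γ γ' : Aff3} {μ c μ' c' : ℝ} {p u s p' u' s' : E}
    (h : HypF γ μ c p u s) (h' : HypF γ' μ' c' p' u' s') :
    lin (γ * γ') 0 0 = 1 ∧ lin (γ * γ') 1 0 = 0 ∧ lin (γ * γ') 2 0 = 0 ∧
    lin (γ * γ') 1 1 * lin (γ * γ') 2 2 - lin (γ * γ') 1 2 * lin (γ * γ') 2 1 = 1 ∧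
    (lin (γ * γ') 1 1 + lin (γ * γ') 2 2) * (dt u s * dt u' s') =
      μ * μ' * (dt u' s * dt u s') + μ * μ'⁻¹ * (dt s' s * dt u' u) +
      μ⁻¹ * μ' * (dt u u' * dt s s') + μ⁻¹ * μ'⁻¹ * (dt u s' * dt u' s) := by
  obtain ⟨g0, g1, g2, h1⟩ := entries hco h
  obtain ⟨a1, a2⟩ := h1 1 (by decide)
  obtain ⟨b1, b2⟩ := h1 2 (by decide)
  obtain ⟨g0', g1', g2', h1'⟩ := entries hco h'
  obtain ⟨a1', a2'⟩ := h1' 1 (by decide)
  obtain ⟨b1', b2'⟩ := h1' 2 (by decide)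
  have d1 := block_det hco h
  have d2 := block_det hco h'
  have hmul := hco.2.1 γ γ'
  refine ⟨by rw [hmul, g0, g0', g1', g2']; ring, by rw [hmul, g1, g1', g2']; ring,
    by rw [hmul, g2, g1', g2']; ring, ?_, ?_⟩
  · rw [hmul, hmul, hmul, hmul, g1, g2]
    linear_combination (lin γ' 1 1 * lin γ' 2 2 - lin γ' 1 2 * lin γ' 2 1) * d1 + d2
  · rw [hmul, hmul, g1, g2]
    have e1 : (0 * lin γ' 0 1 + lin γ 1 1 * lin γ' 1 1 + lin γ 1 2 * lin γ' 2 1 +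
        (0 * lin γ' 0 2 + lin γ 2 1 * lin γ' 1 2 + lin γ 2 2 * lin γ' 2 2)) *
        (dt u s * dt u' s') =
        (lin γ 1 1 * dt u s) * (lin γ' 1 1 * dt u' s') +
        (lin γ 1 2 * dt u s) * (lin γ' 2 1 * dt u' s') +
        ((lin γ 2 1 * dt u s) * (lin γ' 1 2 * dt u' s') +
        (lin γ 2 2 * dt u s) * (lin γ' 2 2 * dt u' s')) := by ring
    rw [e1, a1, a2, b1, b2, a1', a2', b1', b2']
    unfold dt
    ring

/-- The trace of the product of large powers is large. -/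
theorem trace_large (hf : S_frame) (hco : S_coord) {γ γ' : Aff3} {μ μ' : ℝ} {p u s p' u' s' : E}
    (h : HypF γ μ 0 p u s) (h' : HypF γ' μ' 0 p' u' s') (h1 : dt u' s ≠ 0) (h2 : dt u s' ≠ 0) :
    ∀ᶠ n : ℕ in atTop, n ≠ 0 ∧
      lin (γ ^ n * γ' ^ n) 0 0 = 1 ∧ lin (γ ^ n * γ' ^ n) 1 0 = 0 ∧
      lin (γ ^ n * γ' ^ n) 2 0 = 0 ∧
      lin (γ ^ n * γ' ^ n) 1 1 * lin (γ ^ n * γ' ^ n) 2 2 -
        lin (γ ^ n * γ' ^ n) 1 2 * lin (γ ^ n * γ' ^ n) 2 1 = 1 ∧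
      2 < |lin (γ ^ n * γ' ^ n) 1 1 + lin (γ ^ n * γ' ^ n) 2 2| := by
  have hi := inv_pow_tendsto h.1
  have hi' := inv_pow_tendsto h'.1
  have hd : dt u s * dt u' s' ≠ 0 :=
    mul_ne_zero (dt_ne h.2.2.2.2.2) (dt_ne h'.2.2.2.2.2)
  have hlim : Tendsto (fun n : ℕ => |dt u' s * dt u s' +
      (μ'⁻¹ ^ n) ^ 2 * (dt s' s * dt u' u) + (μ⁻¹ ^ n) ^ 2 * (dt u u' * dt s s') +
      (μ⁻¹ ^ n) ^ 2 * (μ'⁻¹ ^ n) ^ 2 * (dt u s' * dt u' s)| -
      2 * |dt u s * dt u' s'| * (μ⁻¹ ^ n * μ'⁻¹ ^ n)) atTop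
      (𝓝 (|dt u' s * dt u s' + 0 ^ 2 * (dt s' s * dt u' u) + 0 ^ 2 * (dt u u' * dt s s') +
        0 ^ 2 * 0 ^ 2 * (dt u s' * dt u' s)| - 2 * |dt u s * dt u' s'| * (0 * 0))) := by
    apply Tendsto.sub
    · apply Tendsto.abs
      apply Tendsto.add
      · apply Tendsto.add
        · exact ((hi'.pow 2).mul_const _).const_add _
        · exact (hi.pow 2).mul_const _
      · exact ((hi.pow 2).mul (hi'.pow 2)).mul_const _
    · exact (hi.mul hi').const_mul _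
  have hpos : 0 < |dt u' s * dt u s' + 0 ^ 2 * (dt s' s * dt u' u) + 0 ^ 2 * (dt u u' * dt s s') +
        0 ^ 2 * 0 ^ 2 * (dt u s' * dt u' s)| - 2 * |dt u s * dt u' s'| * (0 * 0) := by
    have : 0 < |dt u' s * dt u s'| := abs_pos.mpr (mul_ne_zero h1 h2)
    simpa using this
  filter_upwards [hlim.eventually (lt_mem_nhds hpos), eventually_ne_atTop 0] with n hn hn0
  have H := hf.2.2.2.1 γ μ 0 p u s n h hn0
  have H' := hf.2.2.2.1 γ' μ' 0 p' u' s' n h' hn0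
  obtain ⟨t1, t2, t3, t4, t5⟩ := trace_prod hco H H'
  refine ⟨hn0, t1, t2, t3, t4, ?_⟩
  set T := lin (γ ^ n * γ' ^ n) 1 1 + lin (γ ^ n * γ' ^ n) 2 2 with hT
  have ep := pow_mul_inv_pow h.1 n
  have ep' := pow_mul_inv_pow h'.1 n
  have hε : 0 < μ⁻¹ ^ n := pow_pos (inv_pos.mpr (by linarith [h.1])) n
  have hε' : 0 < μ'⁻¹ ^ n := pow_pos (inv_pos.mpr (by linarith [h'.1])) n
  rw [← inv_pow, ← inv_pow] at t5
  have e1 : dt u' s * dt u s' +
      (μ'⁻¹ ^ n) ^ 2 * (dt s' s * dt u' u) + (μ⁻¹ ^ n) ^ 2 * (dt u u' * dt s s') +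
      (μ⁻¹ ^ n) ^ 2 * (μ'⁻¹ ^ n) ^ 2 * (dt u s' * dt u' s) =
      T * (dt u s * dt u' s') * (μ⁻¹ ^ n * μ'⁻¹ ^ n) := by
    rw [t5]
    linear_combination (-(μ' ^ n * μ'⁻¹ ^ n * (dt u' s * dt u s')) -
      (μ'⁻¹ ^ n) ^ 2 * (dt s' s * dt u' u)) * ep -
      ((dt u' s * dt u s') + (μ⁻¹ ^ n) ^ 2 * (dt u u' * dt s s')) * ep'
  rw [e1, abs_mul, abs_mul, abs_of_pos (mul_pos hε hε')] at hn
  have h3 : 0 < (|T| - 2) * (|dt u s * dt u' s'| * (μ⁻¹ ^ n * μ'⁻¹ ^ n)) := by linarith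
  have h4 : 0 < |dt u s * dt u' s'| * (μ⁻¹ ^ n * μ'⁻¹ ^ n) :=
    mul_pos (abs_pos.mpr hd) (mul_pos hε hε')
  have h5 := (mul_pos_iff_of_pos_right h4).mp h3
  linarith

/-- The relation from a fixed point of `γ ^ n * γ' ^ n`. -/
theorem relation (hf : S_frame) {γ γ' : Aff3} {μ μ' : ℝ} {p u s p' u' s' : E} {n : ℕ} (hn : n ≠ 0)
    (h : HypF γ μ 0 p u s) (h' : HypF γ' μ' 0 p' u' s') {m0 k0 l0 m1 k1 l1 m2 k2 l2 : ℝ}
    (hp : p = p' + m0 • e 0 + k0 • u' + l0 • s') (hu : u = m1 • e 0 + k1 • u' + l1 • s')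
    (hs : s = m2 • e 0 + k2 • u' + l2 • s') {q : E} (hq : (γ ^ n * γ' ^ n) q = q) :
    m1 * (k0 * l2 * (1 - μ⁻¹ ^ n * μ'⁻¹ ^ n) - k2 * l0 * (μ⁻¹ ^ n - μ'⁻¹ ^ n)) =
      m2 * (k1 * l0 * (1 - μ⁻¹ ^ n * μ'⁻¹ ^ n) - l1 * k0 * (μ⁻¹ ^ n - μ'⁻¹ ^ n)) := by
  have hus : dt u s ≠ 0 := dt_ne h.2.2.2.2.2
  obtain ⟨θ, A, B, hx⟩ : ∃ θ A B : ℝ, (γ' ^ n) q - p = θ • e 0 + A • u + B • s :=
    ⟨_, _, _, expand hus _⟩
  have hq' : (γ' ^ n) q = p + θ • e 0 + A • u + B • s := by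
    have : (γ' ^ n) q = p + ((γ' ^ n) q - p) := by abel
    rw [this, hx]
    module
  have e1 : (γ ^ n * γ' ^ n) q = (γ ^ n) ((γ' ^ n) q) := rfl
  rw [e1, hq', powc hf h] at hq
  have ep := pow_mul_inv_pow h.1 n
  have ep' := pow_mul_inv_pow h'.1 n
  have hεlt : μ⁻¹ ^ n < 1 :=
    pow_lt_one₀ (inv_nonneg.mpr (by linarith [h.1])) (inv_lt_one_of_one_lt₀ h.1) hn
  have hεlt' : μ'⁻¹ ^ n < 1 :=
    pow_lt_one₀ (inv_nonneg.mpr (by linarith [h'.1])) (inv_lt_one_of_one_lt₀ h'.1) hn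
  set ε := μ⁻¹ ^ n with hε
  set ε' := μ'⁻¹ ^ n with hε'
  obtain ⟨a, ha⟩ : ∃ a, μ ^ n * A = a := ⟨_, rfl⟩
  have hA : A = ε * a := by
    rw [← ha]
    linear_combination (-A) * ep
  rw [ha] at hq
  -- `q` in the second frame
  have hq2 : q = p' + (m0 + θ + m1 * a + m2 * (ε * B)) • e 0 +
      (k0 + k1 * a + k2 * (ε * B)) • u' + (l0 + l1 * a + l2 * (ε * B)) • s' := by
    rw [← hq, hp, hu, hs]
    module
  have hq3 := powc hf h' n (m0 + θ + m1 * a + m2 * (ε * B)) (k0 + k1 * a + k2 * (ε * B))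
    (l0 + l1 * a + l2 * (ε * B))
  rw [← hq2, hq'] at hq3
  have hq4 : (m1 * A + m2 * B - (m1 * a + m2 * (ε * B))) • e 0 +
      (k0 + k1 * A + k2 * B - μ' ^ n * (k0 + k1 * a + k2 * (ε * B))) • u' +
      (l0 + l1 * A + l2 * B - ε' * (l0 + l1 * a + l2 * (ε * B))) • s' = 0 := by
    have h5 : p + θ • e 0 + A • u + B • s - (p' + (m0 + θ + m1 * a + m2 * (ε * B)) • e 0 +
        (μ' ^ n * (k0 + k1 * a + k2 * (ε * B))) • u' +
        (ε' * (l0 + l1 * a + l2 * (ε * B))) • s') = 0 := by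
      rw [hq3, sub_self]
    rw [← h5, hp, hu, hs]
    module
  obtain ⟨E1, E2, E3⟩ := indep h'.2.2.2.2.2 hq4
  rw [hA] at E1 E2 E3
  have F1 : m1 * a = m2 * B := by
    have : (1 - ε) * (m1 * a - m2 * B) = 0 := by linear_combination -E1
    rcases mul_eq_zero.mp this with h6 | h6
    · linarith
    · linarith
  have F2 : k1 * a * (1 - ε * ε') + k2 * B * (ε - ε') = -(1 - ε') * k0 := by
    linear_combination (-ε') * E2 - (k0 + k1 * a + k2 * (ε * B)) * ep'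
  have F3 : l1 * a * (ε - ε') + l2 * B * (1 - ε * ε') = -(1 - ε') * l0 := by
    linear_combination E3
  have F4 : (1 - ε') * (m1 * (k0 * l2 * (1 - ε * ε') - k2 * l0 * (ε - ε')) -
      m2 * (k1 * l0 * (1 - ε * ε') - l1 * k0 * (ε - ε'))) = 0 := by
    linear_combination (m1 * l2 * (1 - ε * ε') + m2 * l1 * (ε - ε')) * F2 -
      (m1 * k2 * (ε - ε') + m2 * k1 * (1 - ε * ε')) * F3 -
      (k1 * l2 * (1 - ε * ε') ^ 2 - k2 * l1 * (ε - ε') ^ 2) * F1
  rcases mul_eq_zero.mp F4 with h6 | h6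
  · linarith
  · linarith


theorem height_eq (hf : S_frame) (hco : S_coord) {D : KData} {γ γ' : Aff3} {μ μ' : ℝ}
    {p u s p' u' s' : E} (hγ : γ ∈ D.Γ) (hγ' : γ' ∈ D.Γ)
    (hc : ∀ δ ∈ D.Γ, ∀ ν c q v w, HypF δ ν c q v w → c = 0)
    (h : HypF γ μ 0 p u s) (h' : HypF γ' μ' 0 p' u' s') (hd1 : dt u' s ≠ 0) (hd2 : dt u s' ≠ 0)
    {m0 k0 l0 m1 k1 l1 m2 k2 l2 : ℝ}
    (hp : p = p' + m0 • e 0 + k0 • u' + l0 • s') (hu : u = m1 • e 0 + k1 • u' + l1 • s')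
    (hs : s = m2 • e 0 + k2 • u' + l2 • s') : m1 * k0 * l2 = m2 * k1 * l0 := by
  have hi := inv_pow_tendsto h.1
  have hi' := inv_pow_tendsto h'.1
  have h1 : Tendsto (fun n : ℕ => m1 * (k0 * l2 * (1 - μ⁻¹ ^ n * μ'⁻¹ ^ n) -
      k2 * l0 * (μ⁻¹ ^ n - μ'⁻¹ ^ n))) atTop
      (𝓝 (m1 * (k0 * l2 * (1 - 0 * 0) - k2 * l0 * (0 - 0)))) :=
    ((((hi.mul hi').const_sub 1).const_mul _).sub ((hi.sub hi').const_mul _)).const_mul _
  have h2 : Tendsto (fun n : ℕ => m2 * (k1 * l0 * (1 - μ⁻¹ ^ n * μ'⁻¹ ^ n) -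
      l1 * k0 * (μ⁻¹ ^ n - μ'⁻¹ ^ n))) atTop
      (𝓝 (m2 * (k1 * l0 * (1 - 0 * 0) - l1 * k0 * (0 - 0)))) :=
    ((((hi.mul hi').const_sub 1).const_mul _).sub ((hi.sub hi').const_mul _)).const_mul _
  have h3 : ∀ᶠ n : ℕ in atTop, m1 * (k0 * l2 * (1 - μ⁻¹ ^ n * μ'⁻¹ ^ n) -
      k2 * l0 * (μ⁻¹ ^ n - μ'⁻¹ ^ n)) = m2 * (k1 * l0 * (1 - μ⁻¹ ^ n * μ'⁻¹ ^ n) -
      l1 * k0 * (μ⁻¹ ^ n - μ'⁻¹ ^ n)) := by
    filter_upwards [trace_large hf hco h h' hd1 hd2] with n hn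
    obtain ⟨hn0, t1, t2, t3, t4, t5⟩ := hn
    obtain ⟨q, hq⟩ := exists_fix hf hco (D.Γ.mul_mem (pow_mem hγ n) (pow_mem hγ' n)) hc t1 t2 t3
      t4 t5
    exact relation hf hn0 h h' hp hu hs hq
  have h4 := tendsto_nhds_unique (h1.congr' h3) h2
  linarith

theorem dt_comm (v w : E) : dt w v = -dt v w := by unfold dt; ring

theorem per (hf : S_frame) (hP1 : S_P1) (hF2 : S_F2) (hK : S_K) (hco : S_coord) : S_per := by
  intro D γ γ' μ μ' p u s p' u' s' _ hγ hγ' hc h h' huu hus' hsu hss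
  have d1 : dt u s ≠ 0 := dt_ne h.2.2.2.2.2
  have d2 : dt u' s' ≠ 0 := dt_ne h'.2.2.2.2.2
  have d3 : dt u u' ≠ 0 := dt_ne huu
  have d4 : dt u s' ≠ 0 := dt_ne hus'
  have d5 : dt s u' ≠ 0 := dt_ne hsu
  have d6 : dt s s' ≠ 0 := dt_ne hss
  have d1' : dt s u ≠ 0 := by rw [dt_comm u s]; exact neg_ne_zero.mpr d1
  have d2' : dt s' u' ≠ 0 := by rw [dt_comm u' s']; exact neg_ne_zero.mpr d2
  have d3' : dt u' u ≠ 0 := by rw [dt_comm u u']; exact neg_ne_zero.mpr d3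
  have d4' : dt s' u ≠ 0 := by rw [dt_comm u s']; exact neg_ne_zero.mpr d4
  have d5' : dt u' s ≠ 0 := by rw [dt_comm s u']; exact neg_ne_zero.mpr d5
  have d6' : dt s' s ≠ 0 := by rw [dt_comm s s']; exact neg_ne_zero.mpr d6
  -- inverses
  have hi : HypF γ⁻¹ μ 0 p s u := by have := hf.2.1 γ μ 0 p u s h; rwa [neg_zero] at this
  have hi' : HypF γ'⁻¹ μ' 0 p' s' u' := by
    have := hf.2.1 γ' μ' 0 p' u' s' h'; rwa [neg_zero] at this
  have hγi : γ⁻¹ ∈ D.Γ := D.Γ.inv_mem hγ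
  have hγi' : γ'⁻¹ ∈ D.Γ := D.Γ.inv_mem hγ'
  -- coordinates
  obtain ⟨m0, k0, l0, hp⟩ : ∃ m0 k0 l0 : ℝ, p = p' + m0 • e 0 + k0 • u' + l0 • s' := by
    obtain ⟨m0, k0, l0, h0⟩ : ∃ m0 k0 l0 : ℝ, p - p' = m0 • e 0 + k0 • u' + l0 • s' :=
      ⟨_, _, _, expand d2 _⟩
    refine ⟨m0, k0, l0, ?_⟩
    have e1 : p = p' + (p - p') := by abel
    rw [e1, h0]
    module
  obtain ⟨m1, k1, l1, hk1, hl1, hu⟩ : ∃ m1 k1 l1 : ℝ, k1 ≠ 0 ∧ l1 ≠ 0 ∧
      u = m1 • e 0 + k1 • u' + l1 • s' :=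
    ⟨_, _, _, div_ne_zero d4 d2, div_ne_zero d3' d2, expand d2 u⟩
  obtain ⟨m2, k2, l2, hk2, hl2, hs⟩ : ∃ m2 k2 l2 : ℝ, k2 ≠ 0 ∧ l2 ≠ 0 ∧
      s = m2 • e 0 + k2 • u' + l2 • s' :=
    ⟨_, _, _, div_ne_zero d6 d2, div_ne_zero d5' d2, expand d2 s⟩
  -- the relations
  have R1 : m1 * k0 * l2 = m2 * k1 * l0 :=
    height_eq hf hco hγ hγ' hc h h' d5' d4 hp hu hs
  have R2 : m1 * l0 * k2 = m2 * l1 * k0 :=
    height_eq hf hco hγ hγi' hc h hi' d6' d3 (by rw [hp]; module) (by rw [hu]; module)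
      (by rw [hs]; module)
  -- the four intersection points
  obtain ⟨hA, ehA⟩ : ∃ hA, hA = m0 - m1 * (k0 / k1) := ⟨_, rfl⟩
  obtain ⟨hB, ehB⟩ : ∃ hB, hB = m0 - m1 * (l0 / l1) := ⟨_, rfl⟩
  have hCA : m0 - m2 * (l0 / l2) = hA := by
    rw [ehA]
    field_simp
    linear_combination R1
  have hDB : m0 - m2 * (k0 / k2) = hB := by
    rw [ehB]
    field_simp
    linear_combination R2
  have pA : ∀ t : ℝ, p + t • e 0 + (-(k0 / k1)) • u =
      p' + (t + hA) • e 0 + (l0 - l1 * (k0 / k1)) • s' := by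
    intro t
    have e1 : k0 - k0 / k1 * k1 = 0 := by field_simp; ring
    have e2 : p + t • e 0 + (-(k0 / k1)) • u = p' + (t + (m0 - m1 * (k0 / k1))) • e 0 +
        (k0 - k0 / k1 * k1) • u' + (l0 - l1 * (k0 / k1)) • s' := by
      rw [hp, hu]
      module
    rw [e2, e1, zero_smul, add_zero, ehA]
  have pB : ∀ t : ℝ, p + t • e 0 + (-(l0 / l1)) • u =
      p' + (t + hB) • e 0 + (k0 - k1 * (l0 / l1)) • u' := by
    intro t
    have e1 : l0 - l0 / l1 * l1 = 0 := by field_simp; ring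
    have e2 : p + t • e 0 + (-(l0 / l1)) • u = p' + (t + (m0 - m1 * (l0 / l1))) • e 0 +
        (k0 - k1 * (l0 / l1)) • u' + (l0 - l0 / l1 * l1) • s' := by
      rw [hp, hu]
      module
    rw [e2, e1, zero_smul, add_zero, ehB]
  have pC : ∀ t : ℝ, p + t • e 0 + (-(l0 / l2)) • s =
      p' + (t + hA) • e 0 + (k0 - k2 * (l0 / l2)) • u' := by
    intro t
    have e1 : l0 - l0 / l2 * l2 = 0 := by field_simp; ring
    have e2 : p + t • e 0 + (-(l0 / l2)) • s = p' + (t + (m0 - m2 * (l0 / l2))) • e 0 +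
        (k0 - k2 * (l0 / l2)) • u' + (l0 - l0 / l2 * l2) • s' := by
      rw [hp, hs]
      module
    rw [e2, e1, zero_smul, add_zero, hCA]
  have pD : ∀ t : ℝ, p + t • e 0 + (-(k0 / k2)) • s =
      p' + (t + hB) • e 0 + (l0 - l2 * (k0 / k2)) • s' := by
    intro t
    have e1 : k0 - k0 / k2 * k2 = 0 := by field_simp; ring
    have e2 : p + t • e 0 + (-(k0 / k2)) • s = p' + (t + (m0 - m2 * (k0 / k2))) • e 0 +
        (k0 - k0 / k2 * k2) • u' + (l0 - l2 * (k0 / k2)) • s' := by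
      rw [hp, hs]
      module
    rw [e2, e1, zero_smul, add_zero, hDB]
  -- the transports
  have T1 : ∀ t, t ∈ D.hs p u → t + hA ∈ D.hs p' u' := fun t ht y =>
    transport hf hK hγ' h' (w := p + t • e 0) (v := u) ht (pA t) d4 y
  have T2 : ∀ t, t ∈ D.hs p u → t + hB ∈ D.hs p' s' := fun t ht y =>
    transport hf hK hγi' hi' (w := p + t • e 0) (v := u) ht (pB t) d3 y
  have T3 : ∀ t, t ∈ D.hs p s → t + hB ∈ D.hs p' u' := fun t ht y =>
    transport hf hK hγ' h' (w := p + t • e 0) (v := s) ht (pD t) d6 y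
  have T4 : ∀ t, t ∈ D.hs p s → t + hA ∈ D.hs p' s' := fun t ht y =>
    transport hf hK hγi' hi' (w := p + t • e 0) (v := s) ht (pC t) d5 y
  have T5 : ∀ t, t + hA ∈ D.hs p' u' → t ∈ D.hs p u := fun t ht y =>
    transport hf hK hγ h (w := p' + (t + hA) • e 0) (v := u') ht (pC t).symm d5' y
  have T6 : ∀ t, t + hB ∈ D.hs p' u' → t ∈ D.hs p s := fun t ht y =>
    transport hf hK hγi hi (w := p' + (t + hB) • e 0) (v := u') ht (pB t).symm d3' y
  have T7 : ∀ t, t + hB ∈ D.hs p' s' → t ∈ D.hs p u := fun t ht y =>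
    transport hf hK hγ h (w := p' + (t + hB) • e 0) (v := s') ht (pD t).symm d6' y
  have T8 : ∀ t, t + hA ∈ D.hs p' s' → t ∈ D.hs p s := fun t ht y =>
    transport hf hK hγi hi (w := p' + (t + hA) • e 0) (v := s') ht (pA t).symm d4' y
  have hune : D.hs p u ≠ univ := hs_ne_univ hF2 D p u (dt_left d1)
  have hsne : D.hs p s ≠ univ := hs_ne_univ hF2 D p s (dt_left d1')
  have hor := stable_or hf hP1 hγ h
  refine ⟨-hA, 2 * (hA - hB), ?_, ?_, ?_, ?_, hune, hs_closed hK D p u⟩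
  · intro h0
    have hAB : hA = hB := by linarith
    apply hune
    rw [eq_univ_iff_forall]
    intro t
    rcases hor t with h1 | h1
    · exact h1
    · apply T5
      rw [hAB]
      exact T3 t h1
  · intro t
    constructor
    · intro ht
      apply T5
      have : t + -hA + hA = t := by ring
      rwa [this]
    · intro ht
      have h1 := T1 _ ht
      have : t + -hA + hA = t := by ring
      rwa [this] at h1
  · intro t
    constructor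
    · intro ht
      have h1 := T1 t ht
      have h2 := T6 (t + hA - hB) (by
        have : t + hA - hB + hB = t + hA := by ring
        rwa [this])
      have h3 := T4 _ h2
      apply T7
      have : t + 2 * (hA - hB) + hB = t + hA - hB + hA := by ring
      rwa [this]
    · intro ht
      have h1 := T2 _ ht
      have h2 := T8 (t + hA - hB) (by
        have : t + hA - hB + hA = t + 2 * (hA - hB) + hB := by ring
        rwa [this])
      have h3 := T3 _ h2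
      apply T5
      have : t + hA = t + hA - hB + hB := by ring
      rwa [this]
  · by_contra hcon
    rw [not_nonempty_iff_eq_empty] at hcon
    apply hsne
    rw [eq_univ_iff_forall]
    intro t
    rcases hor t with h1 | h1
    · rw [hcon] at h1
      exact absurd h1 (notMem_empty t)
    · exact h1

end Pool.Agent.Helper3.K3.per
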